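import Mathlib

set_option autoImplicit false

open Filter Topology unitInterval
open scoped ENNReal

namespace Pool.Agent.Lib.MP_428550_an

/-- `A` is `(n, φ, ε)`-separated: two distinct points of `A` have
`d_n (x, y) = max_{j < n} |φ^j x - φ^j y| > ε`. -/
def Separated (φ : I → I) (n : ℕ) (ε : ℝ) (A : Finset I) : Prop :=
  ∀ x ∈ A, ∀ y ∈ A, x ≠ y → ∃ j < n, ε < |((φ^[j] x : I) : ℝ) - ((φ^[j] y : I) : ℝ)|

/-- `sep (n, φ, ε)`: the supremum of the cardinalities of `(n, φ, ε)`-separated sets. -/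
noncomputable def sepCard (φ : I → I) (n : ℕ) (ε : ℝ) : ℝ≥0∞ :=
  ⨆ (A : Finset I) (_ : Separated φ n ε A), (A.card : ℝ≥0∞)

/-- `sep (φ, ε) = limsup (1 / n) log sep (n, φ, ε)`. -/
noncomputable def sepRate (φ : I → I) (ε : ℝ) : EReal :=
  limsup (fun n : ℕ => ENNReal.log (sepCard φ n ε) / (n : EReal)) atTop

/-- Upper metric mean dimension. -/
noncomputable def mdimUpper (φ : I → I) : EReal :=
  limsup (fun ε : ℝ => sepRate φ ε / ((|Real.log ε| : ℝ) : EReal)) (𝓝[>] 0)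

/-- Lower metric mean dimension. -/
noncomputable def mdimLower (φ : I → I) : EReal :=
  liminf (fun ε : ℝ => sepRate φ ε / ((|Real.log ε| : ℝ) : EReal)) (𝓝[>] 0)

/-- Finite `(p, a)`-variation: the sums `∑ |φ x_{i+1} - φ x_i| ^ p / (x_{i+1} - x_i) ^ a` over all
finite chains `x_0 < x_1 < ... < x_n` in `[0, 1]` are bounded. -/
def FiniteVar (p a : ℝ) (φ : I → I) : Prop :=
  ∃ V : ℝ, ∀ (n : ℕ) (x : ℕ → I), (∀ i < n, x i < x (i + 1)) →
    ∑ i ∈ Finset.range n,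
      |(φ (x (i + 1)) : ℝ) - (φ (x i) : ℝ)| ^ p / ((x (i + 1) : ℝ) - (x i : ℝ)) ^ a ≤ V

end Pool.Agent.Lib.MP_428550_an
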