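import Pool.Agent.Lib.MP_428550_an.Upper

set_option autoImplicit false

open Filter Topology unitInterval
open scoped ENNReal

namespace Pool.Agent.Lib.MP_428550_an.Ex

/-- Distance to the nearest even integer. -/
noncomputable def tri (t : ℝ) : ℝ := ‖(t : AddCircle (2 : ℝ))‖

lemma tri_nonneg (t : ℝ) : 0 ≤ tri t := norm_nonneg _

lemma tri_le_one (t : ℝ) : tri t ≤ 1 := by
  have := AddCircle.norm_le_half_period (2 : ℝ) (x := (t : AddCircle (2 : ℝ))) (by norm_num)
  simpa [tri] using this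

lemma tri_lip (s t : ℝ) : |tri s - tri t| ≤ |s - t| := by
  refine (abs_norm_sub_norm_le _ _).trans ?_
  rw [← AddCircle.coe_sub]
  exact QuotientAddGroup.norm_mk_le_norm

lemma tri_cont : Continuous tri :=
  continuous_norm.comp (AddCircle.continuous_mk' (2 : ℝ))

lemma tri_add (m : ℕ) {t : ℝ} (h0 : 0 ≤ t) (h1 : t ≤ 1) : tri (2 * m + t) = t := by
  have e : ((2 * m + t : ℝ) : AddCircle (2 : ℝ)) = (t : AddCircle (2 : ℝ)) := by
    rw [AddCircle.coe_add]
    have : ((2 * m : ℝ) : AddCircle (2 : ℝ)) = 0 := by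
      rw [AddCircle.coe_eq_zero_iff]
      exact ⟨m, by simp [mul_comm]⟩
    rw [this, zero_add]
  unfold tri
  rw [e, (AddCircle.norm_coe_eq_abs_iff (2 : ℝ) (by norm_num)).2 (by
    rw [abs_of_nonneg h0]; simpa using h1), abs_of_nonneg h0]

/-- Length (and left end) of block `k`. -/
noncomputable def len (k : ℕ) : ℝ := (1 / 2 : ℝ) ^ (k + 1)

lemma len_pos (k : ℕ) : 0 < len k := by unfold len; positivity

lemma two_len (k : ℕ) : 2 * len k = (1 / 2 : ℝ) ^ k := by unfold len; ring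

lemma two_len_le (k : ℕ) : 2 * len k ≤ 1 := by
  rw [two_len]
  exact pow_le_one₀ (by norm_num) (by norm_num)

lemma two_len_le_len {j k : ℕ} (h : k < j) : 2 * len j ≤ len k := by
  rw [two_len]
  exact pow_le_pow_of_le_one (by norm_num) (by norm_num) h

lemma summable_len : Summable len :=
  (summable_nat_add_iff 1).2 summable_geometric_two

lemma exists_block {x : ℝ} (h0 : 0 < x) (h1 : x ≤ 1) : ∃ k, len k < x ∧ x ≤ 2 * len k := by
  obtain ⟨k, a, b⟩ := exists_nat_pow_near_of_lt_one h0 h1 (y := (1 / 2 : ℝ)) (by norm_num)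
    (by norm_num)
  exact ⟨k, a, by rwa [two_len]⟩

/-- Lap width in block `k`. -/
noncomputable def wd (m : ℕ → ℕ) (k : ℕ) : ℝ := len k / (2 * m k + 1)

lemma wd_pos (m : ℕ → ℕ) (k : ℕ) : 0 < wd m k := by
  have := len_pos k
  unfold wd
  positivity

/-- The zigzag of block `k`. -/
noncomputable def zig (m : ℕ → ℕ) (k : ℕ) (x : ℝ) : ℝ :=
  len k + len k * tri ((x - len k) / wd m k)

lemma zig_lap (m : ℕ → ℕ) (k i : ℕ) {t : ℝ} (h0 : 0 ≤ t) (h1 : t ≤ 1) :
    zig m k (len k + wd m k * (2 * i + t)) = len k + len k * t := by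
  unfold zig
  rw [add_sub_cancel_left, mul_div_cancel_left₀ _ (wd_pos m k).ne', tri_add i h0 h1]

lemma zig_left (m : ℕ → ℕ) (k : ℕ) : zig m k (len k) = len k := by
  simpa using zig_lap m k 0 le_rfl zero_le_one

lemma wd_mul (m : ℕ → ℕ) (k : ℕ) : wd m k * (2 * m k + 1) = len k := by
  unfold wd
  field_simp

lemma zig_right (m : ℕ → ℕ) (k : ℕ) : zig m k (2 * len k) = 2 * len k := by
  have := zig_lap m k (m k) zero_le_one le_rfl
  rw [wd_mul, mul_one, ← two_mul] at this
  exact this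

lemma zig_mem (m : ℕ → ℕ) (k : ℕ) (x : ℝ) : len k ≤ zig m k x ∧ zig m k x ≤ 2 * len k := by
  have a := tri_nonneg ((x - len k) / wd m k)
  have b := tri_le_one ((x - len k) / wd m k)
  have c := len_pos k
  unfold zig
  constructor <;> nlinarith

lemma zig_cont (m : ℕ → ℕ) (k : ℕ) : Continuous (zig m k) := by
  unfold zig
  exact continuous_const.add (continuous_const.mul (tri_cont.comp (by fun_prop)))

lemma zig_lip (m : ℕ → ℕ) (k : ℕ) (x y : ℝ) :
    |zig m k y - zig m k x| ≤ len k * (|y - x| / wd m k) := by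
  have e : zig m k y - zig m k x =
      len k * (tri ((y - len k) / wd m k) - tri ((x - len k) / wd m k)) := by
    unfold zig; ring
  rw [e, abs_mul, abs_of_pos (len_pos k)]
  refine mul_le_mul_of_nonneg_left ((tri_lip _ _).trans (le_of_eq ?_)) (len_pos k).le
  rw [← sub_div, abs_div, abs_of_pos (wd_pos m k)]
  congr 2
  ring

/-- Projection onto block `k`. -/
noncomputable def cl (k : ℕ) (x : ℝ) : ℝ := max (len k) (min x (2 * len k))

lemma cl_mem (k : ℕ) (x : ℝ) : len k ≤ cl k x ∧ cl k x ≤ 2 * len k := by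
  have := len_pos k
  exact ⟨le_max_left _ _, max_le (by linarith) (min_le_right _ _)⟩

lemma cl_of_mem {k : ℕ} {x : ℝ} (h1 : len k ≤ x) (h2 : x ≤ 2 * len k) : cl k x = x := by
  unfold cl
  rw [min_eq_left h2, max_eq_right h1]

lemma cl_of_le {k : ℕ} {x : ℝ} (h : x ≤ len k) : cl k x = len k :=
  max_eq_left ((min_le_left _ _).trans h)

lemma cl_of_ge {k : ℕ} {x : ℝ} (h : 2 * len k ≤ x) : cl k x = 2 * len k := by
  have := len_pos k
  unfold cl
  rw [min_eq_right h, max_eq_right (by linarith)]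

lemma cl_mono (k : ℕ) {x y : ℝ} (h : x ≤ y) : cl k x ≤ cl k y :=
  max_le_max le_rfl (min_le_min h le_rfl)

/-- The example map on the real line. -/
noncomputable def Phi (m : ℕ → ℕ) (x : ℝ) : ℝ := x + ∑' k, (zig m k (cl k x) - cl k x)

lemma Phi_cont (m : ℕ → ℕ) : Continuous (Phi m) := by
  refine continuous_id.add (continuous_tsum (u := len) (fun k => ?_) summable_len fun k x => ?_)
  · have : Continuous (cl k) := by unfold cl; fun_prop
    exact ((zig_cont m k).comp this).sub this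
  · have a := zig_mem m k (cl k x)
    have b := cl_mem k x
    rw [Real.norm_eq_abs, abs_le]
    constructor <;> linarith [a.1, a.2, b.1, b.2]

lemma Phi_block (m : ℕ → ℕ) {k : ℕ} {x : ℝ} (h1 : len k ≤ x) (h2 : x ≤ 2 * len k) :
    Phi m x = zig m k x := by
  unfold Phi
  rw [tsum_eq_single k, cl_of_mem h1 h2, add_sub_cancel]
  intro j hj
  rcases lt_or_gt_of_ne hj with h | h
  · rw [cl_of_le (h2.trans (two_len_le_len h)), zig_left, sub_self]
  · rw [cl_of_ge ((two_len_le_len h).trans h1), zig_right, sub_self]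

lemma Phi_zero (m : ℕ → ℕ) : Phi m 0 = 0 := by
  unfold Phi
  have : ∀ k, zig m k (cl k 0) - cl k 0 = 0 := fun k => by
    rw [cl_of_le (len_pos k).le, zig_left, sub_self]
  simp [this]

lemma Phi_mem (m : ℕ → ℕ) (x : I) : Phi m x ∈ I := by
  rcases x.2.1.eq_or_lt with h | h
  · rw [← h, Phi_zero]
    exact zero_mem
  · obtain ⟨k, a, b⟩ := exists_block h x.2.2
    rw [Phi_block m a.le b]
    have := zig_mem m k x
    exact ⟨(len_pos k).le.trans this.1, this.2.trans (two_len_le k)⟩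

/-- The example map on the unit interval. -/
noncomputable def phi (m : ℕ → ℕ) (x : I) : I := ⟨Phi m x, Phi_mem m x⟩

lemma phi_cont (m : ℕ → ℕ) : Continuous (phi m) :=
  ((Phi_cont m).comp continuous_subtype_val).subtype_mk _

/-! Separated sets inside one block. -/

lemma exists_sep (m : ℕ → ℕ) (k : ℕ) {ε : ℝ} (hε : ε < wd m k) (n : ℕ) :
    ∃ A : Finset I, (∀ x ∈ A, len k ≤ (x : ℝ) ∧ (x : ℝ) ≤ 2 * len k) ∧
      Separated (phi m) n ε A ∧ A.card = (m k + 1) ^ n := by
  classical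
  have hl := len_pos k
  have hw := wd_pos m k
  have h2 := two_len_le k
  induction n with
  | zero =>
    refine ⟨{⟨len k, hl.le, by linarith⟩}, ?_, ?_, by simp⟩
    · intro x hx
      rw [Finset.mem_singleton.1 hx]
      exact ⟨le_rfl, by simp only; linarith⟩
    · intro x hx y hy hne
      exact absurd ((Finset.mem_singleton.1 hx).trans (Finset.mem_singleton.1 hy).symm) hne
  | succ n ih =>
    obtain ⟨A, hA, hs, hc⟩ := ih
    let g : ℕ × I → I := fun q =>
      Set.projIcc 0 1 zero_le_one (len k + wd m k * (2 * q.1 + ((q.2 : ℝ) - len k) / len k))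
    have ht : ∀ y ∈ A, 0 ≤ ((y : ℝ) - len k) / len k ∧ ((y : ℝ) - len k) / len k ≤ 1 := by
      intro y hy
      have := hA y hy
      exact ⟨div_nonneg (by linarith [this.1]) hl.le, by
        rw [div_le_one hl]; linarith [this.2]⟩
    have hb : ∀ q ∈ Finset.range (m k + 1) ×ˢ A,
        len k ≤ len k + wd m k * (2 * q.1 + ((q.2 : ℝ) - len k) / len k) ∧
        len k + wd m k * (2 * q.1 + ((q.2 : ℝ) - len k) / len k) ≤ 2 * len k := by
      intro q hq
      obtain ⟨q1, q2⟩ := Finset.mem_product.1 hq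
      have a := ht _ q2
      have b : (q.1 : ℝ) ≤ m k := by exact_mod_cast Nat.lt_succ_iff.1 (Finset.mem_range.1 q1)
      have c : (0 : ℝ) ≤ q.1 := by positivity
      have d := wd_mul m k
      constructor
      · nlinarith [a.1]
      · nlinarith [a.2]
    have hg : ∀ q ∈ Finset.range (m k + 1) ×ˢ A,
        (g q : ℝ) = len k + wd m k * (2 * q.1 + ((q.2 : ℝ) - len k) / len k) := by
      intro q hq
      have := hb q hq
      simp only [g]
      rw [Set.projIcc_of_mem zero_le_one ⟨by linarith [this.1], by linarith [this.2]⟩]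
    have hphi : ∀ q ∈ Finset.range (m k + 1) ×ˢ A, phi m (g q) = q.2 := by
      intro q hq
      have a := ht _ (Finset.mem_product.1 hq).2
      apply Subtype.ext
      change Phi m (g q) = _
      rw [hg q hq, Phi_block m (hb q hq).1 (hb q hq).2, zig_lap m k _ a.1 a.2]
      field_simp
      ring
    have hsep : ∀ q ∈ Finset.range (m k + 1) ×ˢ A, ∀ r ∈ Finset.range (m k + 1) ×ˢ A, q ≠ r →
        ∃ j < n + 1, ε < |(((phi m)^[j] (g q) : I) : ℝ) - (((phi m)^[j] (g r) : I) : ℝ)| := by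
      intro q hq r hr hne
      by_cases e : q.2 = r.2
      · have e1 : q.1 ≠ r.1 := fun e1 => hne (Prod.ext e1 e)
        refine ⟨0, by omega, ?_⟩
        simp only [Function.iterate_zero, id]
        rw [hg q hq, hg r hr, e]
        rcases lt_or_gt_of_ne e1 with h | h
        · have : (q.1 : ℝ) + 1 ≤ r.1 := by exact_mod_cast h
          rw [lt_abs]
          right
          nlinarith
        · have : (r.1 : ℝ) + 1 ≤ q.1 := by exact_mod_cast h
          rw [lt_abs]
          left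
          nlinarith
      · obtain ⟨j, hj, hlt⟩ := hs _ (Finset.mem_product.1 hq).2 _ (Finset.mem_product.1 hr).2 e
        refine ⟨j + 1, by omega, ?_⟩
        rwa [Function.iterate_succ_apply, Function.iterate_succ_apply, hphi q hq, hphi r hr]
    have hinj : Set.InjOn g (Finset.range (m k + 1) ×ˢ A : Finset (ℕ × I)) := by
      intro q hq r hr e
      have e2 : q.2 = r.2 := by rw [← hphi q hq, ← hphi r hr, e]
      have e3 : (g q : ℝ) = g r := by rw [e]
      rw [hg q hq, hg r hr, e2] at e3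
      have e4 : (q.1 : ℝ) = r.1 := by
        have := mul_left_cancel₀ hw.ne' (add_left_cancel e3)
        linarith
      exact Prod.ext (by exact_mod_cast e4) e2
    refine ⟨(Finset.range (m k + 1) ×ˢ A).image g, ?_, ?_, ?_⟩
    · intro x hx
      obtain ⟨q, hq, rfl⟩ := Finset.mem_image.1 hx
      rw [hg q hq]
      exact hb q hq
    · intro x hx y hy hne
      obtain ⟨q, hq, rfl⟩ := Finset.mem_image.1 hx
      obtain ⟨r, hr, rfl⟩ := Finset.mem_image.1 hy
      exact hsep q hq r hr fun e => hne (by rw [e])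
    · rw [Finset.card_image_of_injOn hinj, Finset.card_product, Finset.card_range, hc]
      ring

lemma le_sepRate (m : ℕ → ℕ) (k : ℕ) {ε : ℝ} (hε : ε < wd m k) :
    ((Real.log (m k + 1) : ℝ) : EReal) ≤ sepRate (phi m) ε := by
  have hpos : (0 : ℝ) < m k + 1 := by positivity
  have h1 : (fun n : ℕ => (ENNReal.ofReal (m k + 1)) ^ n) ≤ fun n => sepCard (phi m) n ε := by
    intro n
    obtain ⟨A, -, hs, hc⟩ := exists_sep m k hε n
    refine le_trans (le_of_eq ?_) (le_iSup₂ (f := fun (A : Finset I)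
      (_ : Separated (phi m) n ε A) => (A.card : ℝ≥0∞)) A hs)
    have : ENNReal.ofReal ((m k : ℝ) + 1) = ((m k + 1 : ℕ) : ℝ≥0∞) := by
      rw [← ENNReal.ofReal_natCast]
      push_cast
      rfl
    rw [hc, this, Nat.cast_pow]
  have h2 := ExpGrowth.expGrowthSup_monotone h1
  rw [ExpGrowth.expGrowthSup_pow, ENNReal.log_ofReal_of_pos hpos] at h2
  exact h2

/-! The variation estimate. -/

/-- The density of the control function in block `k`. -/
noncomputable def dn (p a : ℝ) (m : ℕ → ℕ) (k : ℕ) : ℝ := len k ^ p / wd m k ^ (a + 1)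

lemma dn_nonneg (p a : ℝ) (m : ℕ → ℕ) (k : ℕ) : 0 ≤ dn p a m k :=
  div_nonneg (Real.rpow_nonneg (len_pos k).le _) (Real.rpow_nonneg (wd_pos m k).le _)

lemma zig_est {p a : ℝ} (ha : 0 ≤ a) (hap : a ≤ p - 1) (m : ℕ → ℕ) (k : ℕ) {x y h : ℝ}
    (hxy : x ≤ y) (hh : y - x ≤ h) :
    |zig m k y - zig m k x| ^ p ≤ dn p a m k * (y - x) * h ^ a := by
  have hl := len_pos k
  have hw := wd_pos m k
  have hp : 0 < p := by linarith
  rcases hxy.eq_or_lt with rfl | hlt
  · simp [Real.zero_rpow hp.ne']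
  have hd : 0 < y - x := sub_pos.2 hlt
  have hq : 0 < (y - x) / wd m k := div_pos hd hw
  have main : |zig m k y - zig m k x| ^ p ≤ len k ^ p * ((y - x) / wd m k) ^ (a + 1) := by
    rcases le_total ((y - x) / wd m k) 1 with h1 | h1
    · have b := zig_lip m k x y
      rw [abs_of_pos hd] at b
      calc |zig m k y - zig m k x| ^ p ≤ (len k * ((y - x) / wd m k)) ^ p :=
            Real.rpow_le_rpow (abs_nonneg _) b hp.le
        _ = len k ^ p * ((y - x) / wd m k) ^ p := Real.mul_rpow hl.le hq.le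
        _ ≤ _ := mul_le_mul_of_nonneg_left
            (Real.rpow_le_rpow_of_exponent_ge hq h1 (by linarith)) (Real.rpow_nonneg hl.le _)
    · have b1 := zig_mem m k x
      have b2 := zig_mem m k y
      have b : |zig m k y - zig m k x| ≤ len k := by
        rw [abs_le]
        constructor <;> linarith [b1.1, b1.2, b2.1, b2.2]
      calc |zig m k y - zig m k x| ^ p ≤ len k ^ p := Real.rpow_le_rpow (abs_nonneg _) b hp.le
        _ ≤ _ := le_mul_of_one_le_right (Real.rpow_nonneg hl.le _)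
            (Real.one_le_rpow h1 (by linarith))
  refine main.trans ?_
  have e : len k ^ p * ((y - x) / wd m k) ^ (a + 1) = dn p a m k * (y - x) * (y - x) ^ a := by
    unfold dn
    rw [Real.div_rpow hd.le hw.le, Real.rpow_add_one hd.ne']
    ring
  rw [e]
  exact mul_le_mul_of_nonneg_left (Real.rpow_le_rpow hd.le hh ha)
    (mul_nonneg (dn_nonneg p a m k) hd.le)

lemma id_est {p a : ℝ} (ha : 0 ≤ a) (hap : a ≤ p - 1) {u h : ℝ} (h0 : 0 ≤ u) (h1 : u ≤ 1)
    (hh : u ≤ h) : u ^ p ≤ u * h ^ a := by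
  have hp : 0 < p := by linarith
  rcases h0.eq_or_lt with rfl | hu
  · simp [Real.zero_rpow hp.ne']
  calc u ^ p ≤ u ^ (a + 1) := Real.rpow_le_rpow_of_exponent_ge hu h1 (by linarith)
    _ = u * u ^ a := by rw [Real.rpow_add_one hu.ne', mul_comm]
    _ ≤ _ := mul_le_mul_of_nonneg_left (Real.rpow_le_rpow hu.le hh ha) hu.le

/-- The control function. -/
noncomputable def ctl (p a : ℝ) (m : ℕ → ℕ) (x : ℝ) : ℝ :=
  x + ∑' k, dn p a m k * (cl k x - len k)

lemma ctl_summable {p a : ℝ} {m : ℕ → ℕ} (hs : Summable fun k => dn p a m k * len k) (x : ℝ) :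
    Summable fun k => dn p a m k * (cl k x - len k) := by
  refine Summable.of_nonneg_of_le (fun k => ?_) (fun k => ?_) hs
  · exact mul_nonneg (dn_nonneg p a m k) (by linarith [(cl_mem k x).1])
  · exact mul_le_mul_of_nonneg_left (by linarith [(cl_mem k x).2]) (dn_nonneg p a m k)

lemma ctl_sub {p a : ℝ} {m : ℕ → ℕ} (hs : Summable fun k => dn p a m k * len k) {x y : ℝ}
    (hxy : x ≤ y) (k : ℕ) :
    (y - x) + dn p a m k * (cl k y - cl k x) ≤ ctl p a m y - ctl p a m x := by
  have h1 := (ctl_summable hs y).sub (ctl_summable hs x)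
  have h2 := (ctl_summable hs y).tsum_sub (ctl_summable hs x)
  have h3 := h1.le_tsum k fun j _ => by
    have := mul_le_mul_of_nonneg_left (cl_mono j hxy) (dn_nonneg p a m j)
    linarith
  unfold ctl
  rw [h2] at h3
  linarith

lemma ctl_id {p a : ℝ} {m : ℕ → ℕ} (hs : Summable fun k => dn p a m k * len k) {x y : ℝ}
    (hxy : x ≤ y) : y - x ≤ ctl p a m y - ctl p a m x := by
  have h1 := ctl_sub hs hxy 0
  have h2 := mul_nonneg (dn_nonneg p a m 0) (sub_nonneg.2 (cl_mono 0 hxy))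
  linarith

lemma block_est {p a : ℝ} (ha : 0 ≤ a) (hap : a ≤ p - 1) {m : ℕ → ℕ}
    (hs : Summable fun k => dn p a m k * len k) {k : ℕ} {x y h : ℝ} (h1 : len k ≤ x)
    (hxy : x ≤ y) (h2 : y ≤ 2 * len k) (hh : y - x ≤ h) :
    |Phi m y - Phi m x| ^ p ≤ (ctl p a m y - ctl p a m x) * h ^ a := by
  rw [Phi_block m h1 (hxy.trans h2), Phi_block m (h1.trans hxy) h2]
  refine (zig_est ha hap m k hxy hh).trans
    (mul_le_mul_of_nonneg_right ?_ (Real.rpow_nonneg (by linarith) _))
  have := ctl_sub hs hxy k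
  rw [cl_of_mem h1 (hxy.trans h2), cl_of_mem (h1.trans hxy) h2] at this
  linarith

lemma fix_est {p a : ℝ} (ha : 0 ≤ a) (hap : a ≤ p - 1) {m : ℕ → ℕ}
    (hs : Summable fun k => dn p a m k * len k) {x y h : ℝ} (hx : Phi m x = x) (hy : Phi m y = y)
    (hxy : x ≤ y) (h1 : y - x ≤ 1) (hh : y - x ≤ h) :
    |Phi m y - Phi m x| ^ p ≤ (ctl p a m y - ctl p a m x) * h ^ a := by
  rw [hx, hy, abs_of_nonneg (sub_nonneg.2 hxy)]
  exact (id_est ha hap (sub_nonneg.2 hxy) h1 hh).trans
    (mul_le_mul_of_nonneg_right (ctl_id hs hxy) (Real.rpow_nonneg (by linarith) _))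

lemma glue {p : ℝ} (hp : 0 ≤ p) {u v w A B c d : ℝ} (hB : 0 ≤ B) (hc : 1 ≤ c)
    (hd : 0 ≤ d) (h1 : |v - u| ^ p ≤ c * A * d) (h2 : |w - v| ^ p ≤ B * d) :
    |w - u| ^ p ≤ 2 ^ p * c * (A + B) * d := by
  have t : |w - u| ≤ |v - u| + |w - v| := by
    have := abs_add_le (v - u) (w - v)
    rwa [show v - u + (w - v) = w - u by ring] at this
  have h3 : B * d ≤ c * B * d := by
    have := mul_nonneg hB hd
    nlinarith
  calc |w - u| ^ p ≤ (|v - u| + |w - v|) ^ p := Real.rpow_le_rpow (abs_nonneg _) t hp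
    _ ≤ 2 ^ p * (|v - u| ^ p + |w - v| ^ p) := Up.add_rpow_le (abs_nonneg _) (abs_nonneg _) hp
    _ ≤ 2 ^ p * (c * A * d + c * B * d) :=
        mul_le_mul_of_nonneg_left (by linarith) (by positivity)
    _ = _ := by ring

lemma Phi_est {p a : ℝ} (ha : 0 ≤ a) (hap : a ≤ p - 1) {m : ℕ → ℕ}
    (hs : Summable fun k => dn p a m k * len k) {x y : ℝ} (h0 : 0 ≤ x) (hxy : x < y)
    (h1 : y ≤ 1) :
    |Phi m y - Phi m x| ^ p ≤ 2 ^ p * 2 ^ p * (ctl p a m y - ctl p a m x) * (y - x) ^ a := by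
  have hp : 0 ≤ p := by linarith
  have h2p : (1 : ℝ) ≤ 2 ^ p := Real.one_le_rpow (by norm_num) hp
  have hd : 0 ≤ (y - x) ^ a := Real.rpow_nonneg (by linarith) _
  have cm : ∀ {u v : ℝ}, u ≤ v → 0 ≤ ctl p a m v - ctl p a m u := fun h =>
    (sub_nonneg.2 h).trans (ctl_id hs h)
  have fl : ∀ k, Phi m (len k) = len k := fun k => by
    rw [Phi_block m le_rfl (by linarith [len_pos k]), zig_left]
  have fr : ∀ k, Phi m (2 * len k) = 2 * len k := fun k => by
    rw [Phi_block m (by linarith [len_pos k]) le_rfl, zig_right]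
  obtain ⟨k, k1, k2⟩ := exists_block (h0.trans_lt hxy) h1
  by_cases hk : len k ≤ x
  · have b := block_est ha hap hs hk hxy.le k2 le_rfl
    have c := mul_nonneg (cm hxy.le) hd
    have e : (1 : ℝ) ≤ 2 ^ p * 2 ^ p := by nlinarith
    nlinarith
  have hk' : x < len k := not_le.1 hk
  have right := block_est ha hap hs (h := y - x) (le_refl (len k)) k1.le k2 (by linarith)
  have left : |Phi m (len k) - Phi m x| ^ p ≤
      2 ^ p * (ctl p a m (len k) - ctl p a m x) * (y - x) ^ a := by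
    rcases h0.eq_or_lt with rfl | hx
    · have b := fix_est ha hap hs (h := y - 0) (Phi_zero m) (fl k) hk'.le (by linarith)
        (by linarith)
      have c := mul_nonneg (cm hk'.le) hd
      nlinarith
    · obtain ⟨j, j1, j2⟩ := exists_block hx (by linarith)
      have hkj : k < j := by
        by_contra hc
        rcases (not_lt.1 hc).eq_or_lt with e | e
        · rw [e] at j1; linarith
        · have := two_len_le_len e
          have := len_pos k
          linarith
      have j3 := two_len_le_len hkj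
      have b1 := block_est ha hap hs (h := y - x) j1.le j2 le_rfl (by linarith)
      have b2 := fix_est ha hap hs (h := y - x) (fr j) (fl k) j3 (by linarith) (by linarith)
      have := glue hp (cm j3) le_rfl hd (by rwa [one_mul]) b2
      rw [mul_one] at this
      convert this using 3
      ring
  have := glue hp (cm k1.le) h2p hd left right
  convert this using 3
  ring

lemma finiteVar {p a : ℝ} (ha : 0 ≤ a) (hap : a ≤ p - 1) {m : ℕ → ℕ}
    (hs : Summable fun k => dn p a m k * len k) : FiniteVar p a (phi m) := by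
  refine ⟨2 ^ p * 2 ^ p * (ctl p a m 1 - ctl p a m 0), fun n x hx => ?_⟩
  have cm : ∀ {u v : ℝ}, u ≤ v → 0 ≤ ctl p a m v - ctl p a m u := fun h =>
    (sub_nonneg.2 h).trans (ctl_id hs h)
  calc ∑ i ∈ Finset.range n, |(phi m (x (i + 1)) : ℝ) - (phi m (x i) : ℝ)| ^ p /
        ((x (i + 1) : ℝ) - (x i : ℝ)) ^ a
      ≤ ∑ i ∈ Finset.range n, 2 ^ p * 2 ^ p * (ctl p a m (x (i + 1)) - ctl p a m (x i)) := by
        refine Finset.sum_le_sum fun i hi => ?_
        have hlt : (x i : ℝ) < x (i + 1) := hx i (Finset.mem_range.1 hi)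
        rw [div_le_iff₀ (Real.rpow_pos_of_pos (sub_pos.2 hlt) a)]
        exact Phi_est ha hap hs (x i).2.1 hlt (x (i + 1)).2.2
    _ = 2 ^ p * 2 ^ p * (ctl p a m (x n) - ctl p a m (x 0)) := by
        rw [← Finset.mul_sum, Finset.sum_range_sub fun i => ctl p a m (x i)]
    _ ≤ _ := by
        refine mul_le_mul_of_nonneg_left ?_ (by positivity)
        linarith [cm (x n).2.2, cm (x 0).2.1]

/-! The choice of the number of laps. -/

/-- Half the number of laps in block `k`. -/
noncomputable def laps (θ : ℝ) (k : ℕ) : ℕ := ⌊(2 : ℝ) ^ (θ * k) / ((k : ℝ) + 1) ^ 2⌋₊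

lemma laps_le (θ : ℝ) (k : ℕ) : (laps θ k : ℝ) ≤ (2 : ℝ) ^ (θ * k) / ((k : ℝ) + 1) ^ 2 :=
  Nat.floor_le (by positivity)

lemma lt_laps (θ : ℝ) (k : ℕ) : (2 : ℝ) ^ (θ * k) / ((k : ℝ) + 1) ^ 2 < (laps θ k : ℝ) + 1 :=
  Nat.lt_floor_add_one _

lemma len_eq (k : ℕ) : len k = (2 : ℝ) ^ (-(k : ℝ)) / 2 := by
  rw [Real.rpow_neg (by norm_num), Real.rpow_natCast]
  unfold len
  rw [pow_succ, one_div, inv_pow]
  ring

lemma laps_summable {p a : ℝ} (ha : 0 ≤ a) (hap : a ≤ p - 1) :
    Summable fun k => dn p a (laps ((p - a) / (a + 1))) k * len k := by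
  set θ := (p - a) / (a + 1) with hθ
  have ha1 : 0 < a + 1 := by linarith
  have hθ0 : 0 < θ := div_pos (by linarith) ha1
  have s1 : Summable fun k : ℕ => 2 / ((k : ℝ) + 1) ^ 2 := by
    have := (summable_nat_add_iff 1).2 (Real.summable_one_div_nat_pow.2 one_lt_two)
    refine (this.mul_left 2).congr fun k => ?_
    push_cast
    ring
  have s2 : Summable fun k : ℕ => ((2 : ℝ) ^ (-θ)) ^ k :=
    summable_geometric_of_lt_one (by positivity)
      (Real.rpow_lt_one_of_one_lt_of_neg (by norm_num) (by linarith))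
  refine Summable.of_nonneg_of_le (fun k => mul_nonneg (dn_nonneg _ _ _ k) (len_pos k).le)
    (fun k => ?_) ((s1.add s2).mul_left (3 ^ (a + 1)))
  have hl := len_pos k
  have hE : 0 < (2 : ℝ) ^ (θ * k) := by positivity
  have hE1 : 1 ≤ (2 : ℝ) ^ (θ * k) := Real.one_le_rpow (by norm_num) (by positivity)
  have hs : (0 : ℝ) < 2 * laps θ k + 1 := by positivity
  have e1 : dn p a (laps θ) k * len k = (2 * laps θ k + 1 : ℝ) ^ (a + 1) * len k ^ (p - a) := by
    unfold dn wd
    rw [Real.div_rpow hl.le hs.le, Real.rpow_sub hl, Real.rpow_add_one hl.ne']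
    have := (Real.rpow_pos_of_pos hl a).ne'
    have := (Real.rpow_pos_of_pos hs (a + 1)).ne'
    field_simp
  have e2 : len k ^ (p - a) ≤ (((2 : ℝ) ^ (θ * k))⁻¹) ^ (a + 1) := by
    have b1 : len k ≤ (2 : ℝ) ^ (-(k : ℝ)) := by
      rw [len_eq]
      have : 0 < (2 : ℝ) ^ (-(k : ℝ)) := by positivity
      linarith
    refine (Real.rpow_le_rpow hl.le b1 (by linarith)).trans (le_of_eq ?_)
    rw [← Real.rpow_neg (by norm_num), ← Real.rpow_mul (by norm_num),
      ← Real.rpow_mul (by norm_num)]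
    congr 1
    rw [hθ]
    field_simp
  have e3 : ((2 : ℝ) ^ (θ * k))⁻¹ = ((2 : ℝ) ^ (-θ)) ^ k := by
    rw [← Real.rpow_neg (by norm_num), ← Real.rpow_natCast, ← Real.rpow_mul (by norm_num)]
    congr 1
    ring
  have hk1 : (1 : ℝ) ≤ ((k : ℝ) + 1) ^ 2 := by
    have : (0 : ℝ) ≤ k := by positivity
    nlinarith
  set u := (2 * laps θ k + 1 : ℝ) * ((2 : ℝ) ^ (θ * k))⁻¹ with hu
  have hu0 : 0 < u := by positivity
  have hu1 : u ≤ 2 / ((k : ℝ) + 1) ^ 2 + ((2 : ℝ) ^ (θ * k))⁻¹ := by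
    have b := laps_le θ k
    have c : (laps θ k : ℝ) * ((2 : ℝ) ^ (θ * k))⁻¹ ≤ 1 / ((k : ℝ) + 1) ^ 2 := by
      rw [← div_eq_mul_inv, div_le_iff₀ hE]
      refine b.trans (le_of_eq ?_)
      ring
    have d : 2 / ((k : ℝ) + 1) ^ 2 = 2 * (1 / ((k : ℝ) + 1) ^ 2) := by ring
    rw [hu, d]
    nlinarith
  have hu3 : u / 3 ≤ 1 := by
    have b1 : 2 / ((k : ℝ) + 1) ^ 2 ≤ 2 := div_le_self (by norm_num) hk1
    have b2 : ((2 : ℝ) ^ (θ * k))⁻¹ ≤ 1 := inv_le_one_of_one_le₀ hE1
    linarith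
  calc dn p a (laps θ) k * len k
      ≤ (2 * laps θ k + 1 : ℝ) ^ (a + 1) * (((2 : ℝ) ^ (θ * k))⁻¹) ^ (a + 1) := by
        rw [e1]
        exact mul_le_mul_of_nonneg_left e2 (Real.rpow_nonneg hs.le _)
    _ = 3 ^ (a + 1) * (u / 3) ^ (a + 1) := by
        rw [← Real.mul_rpow hs.le (by positivity), ← Real.mul_rpow (by norm_num) (by positivity)]
        congr 1
        rw [hu]
        ring
    _ ≤ 3 ^ (a + 1) * (u / 3) := by
        refine mul_le_mul_of_nonneg_left ?_ (by positivity)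
        have := Real.rpow_le_rpow_of_exponent_ge (x := u / 3) (by positivity) hu3
          (show (1 : ℝ) ≤ a + 1 by linarith)
        rwa [Real.rpow_one] at this
    _ ≤ _ := by
        refine mul_le_mul_of_nonneg_left ?_ (by positivity)
        rw [← e3]
        linarith

lemma laps_rate {θ : ℝ} (hθ : 0 < θ) : ∃ C : ℝ, ∀ ε : ℝ, 0 < ε → ε < 1 → 2 ≤ |Real.log ε| →
    ((θ / (1 + θ) * |Real.log ε| - C - 2 * Real.log |Real.log ε| : ℝ) : EReal) ≤
      sepRate (phi (laps θ)) ε := by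
  refine ⟨2 * (θ / (1 + θ)) + θ * Real.log 2 + 2 * Real.log 2, fun ε h0 h1 h2 => ?_⟩
  set L := |Real.log ε| with hL
  have hLe : Real.log ε = -L := by
    rw [hL, abs_of_neg (Real.log_neg h0 h1), neg_neg]
  have l2 : 1 / 2 < Real.log 2 := by linarith [Real.log_two_gt_d9]
  set c := (1 + θ) * Real.log 2 with hc
  have hc0 : 1 / 2 < c := by nlinarith
  have hcp : 0 < c := by linarith
  set k := ⌊(L - 2) / c⌋₊ with hk
  have k1 : (k : ℝ) ≤ (L - 2) / c := Nat.floor_le (div_nonneg (by linarith) hcp.le)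
  have k2 : (L - 2) / c < k + 1 := Nat.lt_floor_add_one _
  have k0 : (0 : ℝ) ≤ k := by positivity
  rw [le_div_iff₀ hcp] at k1
  rw [div_lt_iff₀ hcp] at k2
  have hE : 0 < (2 : ℝ) ^ (θ * k) := by positivity
  have hE1 : 1 ≤ (2 : ℝ) ^ (θ * k) := Real.one_le_rpow (by norm_num) (by positivity)
  have hk1 : (1 : ℝ) ≤ ((k : ℝ) + 1) ^ 2 := by nlinarith
  have hs : (2 * laps θ k + 1 : ℝ) ≤ 3 * (2 : ℝ) ^ (θ * k) := by
    have b := (laps_le θ k).trans (div_le_self hE.le hk1)
    linarith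
  have hw : ε < wd (laps θ) k := by
    have b1 : len k / (3 * (2 : ℝ) ^ (θ * k)) ≤ wd (laps θ) k :=
      div_le_div_of_nonneg_left (len_pos k).le (by positivity) hs
    refine lt_of_lt_of_le ?_ b1
    have hpos : 0 < len k / (3 * (2 : ℝ) ^ (θ * k)) := div_pos (len_pos k) (by positivity)
    rw [← Real.log_lt_log_iff h0 hpos, len_eq, Real.log_div (by positivity) (by positivity),
      Real.log_div (by positivity) (by norm_num), Real.log_mul (by norm_num) hE.ne',
      Real.log_rpow (by norm_num), Real.log_rpow (by norm_num), hLe]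
    have l3 : Real.log 3 < 13 / 10 := by
      rw [Real.log_lt_iff_lt_exp (by norm_num)]
      have b2 : (13 / 10 : ℝ) = 1 + 3 / 10 := by norm_num
      have b3 := Real.add_one_le_exp (3 / 10 : ℝ)
      have b4 := Real.exp_one_gt_d9
      rw [b2, Real.exp_add]
      nlinarith
    have l4 := Real.log_two_lt_d9
    rw [hc] at k1
    nlinarith
  refine le_trans ?_ (le_sepRate (laps θ) k hw)
  rw [EReal.coe_le_coe_iff]
  have b1 : Real.log ((2 : ℝ) ^ (θ * k) / ((k : ℝ) + 1) ^ 2) ≤ Real.log (laps θ k + 1) :=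
    Real.log_le_log (by positivity) (lt_laps θ k).le
  rw [Real.log_div hE.ne' (by positivity), Real.log_rpow (by norm_num), Real.log_pow] at b1
  have b2 : Real.log ((k : ℝ) + 1) ≤ Real.log 2 + Real.log L := by
    rw [← Real.log_mul (by norm_num) (by linarith)]
    refine Real.log_le_log (by positivity) ?_
    nlinarith
  have b3 : θ / (1 + θ) * (L - 2) ≤ θ * (k + 1) * Real.log 2 := by
    have e : θ * (k + 1) * Real.log 2 = θ / (1 + θ) * ((k + 1) * c) := by
      rw [hc]
      field_simp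
    rw [e]
    exact mul_le_mul_of_nonneg_left k2.le (by positivity)
  push_cast at b1
  nlinarith

lemma lower {θ : ℝ} (hθ : 0 < θ) : ((θ / (1 + θ) : ℝ) : EReal) ≤ mdimLower (phi (laps θ)) := by
  obtain ⟨C, hC⟩ := laps_rate hθ
  have t1 : Tendsto (fun L : ℝ => θ / (1 + θ) - C / L - 2 * (Real.log L / L)) atTop
      (𝓝 (θ / (1 + θ))) := by
    have a1 : Tendsto (fun L : ℝ => C / L) atTop (𝓝 0) := tendsto_id.const_div_atTop C
    have a2 : Tendsto (fun L : ℝ => Real.log L / L) atTop (𝓝 0) := by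
      simpa using Real.tendsto_pow_log_div_mul_add_atTop 1 0 1 one_ne_zero
    simpa using (tendsto_const_nhds.sub a1).sub (a2.const_mul 2)
  have ht : Tendsto (fun ε : ℝ => ((θ / (1 + θ) - C / |Real.log ε| -
      2 * (Real.log |Real.log ε| / |Real.log ε|) : ℝ) : EReal)) (𝓝[>] 0)
      (𝓝 ((θ / (1 + θ) : ℝ) : EReal)) := by
    rw [EReal.tendsto_coe]
    exact t1.comp Up.tendsto_abs_log
  rw [← ht.liminf_eq]
  refine liminf_le_liminf ?_
  have e1 : ∀ᶠ ε : ℝ in 𝓝[>] 0, ε ∈ Set.Ioo (0 : ℝ) 1 := Ioo_mem_nhdsGT (by norm_num)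
  filter_upwards [e1, Up.tendsto_abs_log.eventually_ge_atTop 2] with ε hε h2
  have hl : 0 < |Real.log ε| := by linarith
  calc _ = ((θ / (1 + θ) * |Real.log ε| - C - 2 * Real.log |Real.log ε| : ℝ) : EReal) /
        ((|Real.log ε| : ℝ) : EReal) := by
        rw [← EReal.coe_div]
        congr 1
        field_simp
    _ ≤ _ := EReal.div_le_div_right_of_nonneg (by exact_mod_cast hl.le) (hC ε hε.1 hε.2 h2)

theorem exists_example {p a : ℝ} (hp : 1 ≤ p) (ha : 0 ≤ a) (hap : a ≤ p - 1) :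
    ∃ φ : I → I, Continuous φ ∧ FiniteVar p a φ ∧
      mdimLower φ = (((p - a) / (p + 1) : ℝ) : EReal) ∧
      mdimUpper φ = (((p - a) / (p + 1) : ℝ) : EReal) := by
  have ha1 : 0 < a + 1 := by linarith
  have hθ : 0 < (p - a) / (a + 1) := div_pos (by linarith) ha1
  have hv := finiteVar ha hap (laps_summable ha hap)
  have h1 := lower hθ
  have e : (p - a) / (a + 1) / (1 + (p - a) / (a + 1)) = (p - a) / (p + 1) := by
    have : 0 < p + 1 := by linarith
    have e1 : 1 + (p - a) / (a + 1) = (p + 1) / (a + 1) := by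
      field_simp
      ring
    rw [e1]
    field_simp
  rw [e] at h1
  have h2 := Up.upper hp ha hap hv
  have h3 : mdimLower (phi (laps ((p - a) / (a + 1)))) ≤
      mdimUpper (phi (laps ((p - a) / (a + 1)))) := liminf_le_limsup
  exact ⟨_, phi_cont _, hv, le_antisymm (h3.trans h2) h1, le_antisymm h2 (h1.trans h3)⟩

end Pool.Agent.Lib.MP_428550_an.Ex
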