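import Pool.Agent.Lib.MP_428550_an.Defs

set_option autoImplicit false

open Filter Topology unitInterval
open scoped ENNReal

namespace Pool.Agent.Lib.MP_428550_an.Up

/-- One term of the variation sum. -/
noncomputable def T (p a : ℝ) (φ : I → I) (x y : I) : ℝ :=
  |(φ y : ℝ) - (φ x : ℝ)| ^ p / ((y : ℝ) - (x : ℝ)) ^ a

lemma T_nonneg (p a : ℝ) (φ : I → I) {x y : I} (h : x ≤ y) : 0 ≤ T p a φ x y := by
  have h' : (0 : ℝ) ≤ (y : ℝ) - (x : ℝ) := sub_nonneg.2 h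
  unfold T
  positivity

lemma T_self {p : ℝ} (hp : 0 < p) (a : ℝ) (φ : I → I) (x : I) : T p a φ x x = 0 := by
  simp [T, Real.zero_rpow hp.ne']

/-- A strict chain ending at `z` has variation sum at least `c`. -/
def Ach (p a : ℝ) (φ : I → I) (z : I) (c : ℝ) : Prop :=
  ∃ (n : ℕ) (u : ℕ → I), (∀ i < n, u i < u (i + 1)) ∧ u n = z ∧
    c ≤ ∑ i ∈ Finset.range n, T p a φ (u i) (u (i + 1))

lemma ach_zero (p a : ℝ) (φ : I → I) (z : I) : Ach p a φ z 0 :=
  ⟨0, fun _ => z, by simp, rfl, by simp⟩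

lemma Ach.mono {p a : ℝ} {φ : I → I} {z : I} {c c' : ℝ} (h : Ach p a φ z c) (hc : c' ≤ c) :
    Ach p a φ z c' := by
  obtain ⟨n, u, h1, h2, h3⟩ := h
  exact ⟨n, u, h1, h2, hc.trans h3⟩

lemma Ach.step {p a : ℝ} (hp : 0 < p) {φ : I → I} {z w : I} {c : ℝ} (h : Ach p a φ z c)
    (hzw : z ≤ w) : Ach p a φ w (c + T p a φ z w) := by
  rcases hzw.eq_or_lt with rfl | hlt
  · simpa [T_self hp] using h
  obtain ⟨n, u, h1, h2, h3⟩ := h
  refine ⟨n + 1, fun i => if i ≤ n then u i else w, ?_, by simp, ?_⟩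
  · intro i hi
    by_cases hin : i + 1 ≤ n
    · simp only [hin, (by omega : i ≤ n), if_true]
      exact h1 i (by omega)
    · have : i = n := by omega
      subst this
      simp [h2, hlt]
  · rw [Finset.sum_range_succ]
    have e1 : ∑ i ∈ Finset.range n, T p a φ (if i ≤ n then u i else w)
        (if i + 1 ≤ n then u (i + 1) else w) =
        ∑ i ∈ Finset.range n, T p a φ (u i) (u (i + 1)) := by
      refine Finset.sum_congr rfl fun i hi => ?_
      have hi' := Finset.mem_range.1 hi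
      rw [if_pos (by omega), if_pos (by omega)]
    have e2 : ¬ n + 1 ≤ n := by omega
    simp only [e1, le_refl, if_true, if_neg e2, h2]
    linarith

lemma fam {p a V : ℝ} (hp : 0 < p) {φ : I → I}
    (hV : ∀ (n : ℕ) (x : ℕ → I), (∀ i < n, x i < x (i + 1)) →
      ∑ i ∈ Finset.range n, T p a φ (x i) (x (i + 1)) ≤ V)
    (x y : ℕ → I) (n : ℕ) (h1 : ∀ i, x i ≤ y i) (h2 : ∀ i, i + 1 < n → y i ≤ x (i + 1)) :
    ∑ i ∈ Finset.range n, T p a φ (x i) (y i) ≤ V := by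
  have fin : ∀ z c, Ach p a φ z c → c ≤ V := by
    rintro z c ⟨m, u, g1, -, g3⟩
    exact g3.trans (hV m u g1)
  have key : ∀ k, k + 1 ≤ n → Ach p a φ (y k) (∑ i ∈ Finset.range (k + 1), T p a φ (x i) (y i)) := by
    intro k
    induction k with
    | zero =>
      intro _
      simpa using (ach_zero p a φ (x 0)).step hp (h1 0)
    | succ k ih =>
      intro hk
      have a1 := ((ih (by omega)).step hp (h2 k (by omega))).mono
        (le_add_of_nonneg_right (T_nonneg p a φ (h2 k (by omega))))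
      rw [Finset.sum_range_succ]
      exact a1.step hp (h1 (k + 1))
  rcases n with _ | n
  · simpa using fin _ _ (ach_zero p a φ (x 0))
  · exact fin _ _ (key n le_rfl)

/-- The cell of a point. -/
noncomputable def cell (ε : ℝ) (x : I) : ℕ := ⌊(x : ℝ) / ε⌋₊

/-- The number of cells. -/
noncomputable def nc (ε : ℝ) : ℕ := ⌊1 / ε⌋₊ + 1

lemma cell_lt {ε : ℝ} (hε : 0 < ε) (x : I) : cell ε x < nc ε := by
  unfold cell nc
  exact Nat.lt_succ_of_le (Nat.floor_le_floor (div_le_div_of_nonneg_right x.2.2 hε.le))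

lemma cell_le {ε : ℝ} (hε : 0 < ε) (x : I) : (cell ε x : ℝ) ≤ (x : ℝ) / ε :=
  Nat.floor_le (div_nonneg x.2.1 hε.le)

lemma lt_cell (ε : ℝ) (x : I) : (x : ℝ) / ε < (cell ε x : ℝ) + 1 := Nat.lt_floor_add_one _

lemma close_of_cell {ε : ℝ} (hε : 0 < ε) {x y : I} (h : cell ε x = cell ε y) :
    |(x : ℝ) - (y : ℝ)| < ε := by
  have a1 := cell_le hε x
  have a2 := cell_le hε y
  have a3 := lt_cell ε x
  have a4 := lt_cell ε y
  rw [h] at a1 a3
  rw [le_div_iff₀ hε] at a1 a2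
  rw [div_lt_iff₀ hε] at a3 a4
  rw [abs_lt]
  constructor <;> nlinarith

lemma le_of_cell_lt {ε : ℝ} (hε : 0 < ε) {x y : I} (h : cell ε x < cell ε y) : x ≤ y := by
  by_contra hc
  have hc' : (y : ℝ) ≤ (x : ℝ) := (not_le.1 hc).le
  have : cell ε y ≤ cell ε x := Nat.floor_le_floor (div_le_div_of_nonneg_right hc' hε.le)
  omega

lemma cell_nonempty {ε : ℝ} (hε : 0 < ε) {i : ℕ} (hi : i < nc ε) : ∃ x : I, cell ε x = i := by
  have h1 : i ≤ ⌊1 / ε⌋₊ := Nat.lt_succ_iff.1 hi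
  have h2 : (i : ℝ) ≤ 1 / ε := (Nat.le_floor_iff (by positivity)).1 h1
  rw [le_div_iff₀ hε] at h2
  refine ⟨⟨i * ε, by positivity, h2⟩, ?_⟩
  simp [cell, mul_div_assoc, div_self hε.ne']

lemma nc_le {ε : ℝ} (hε : 0 < ε) (h1 : ε ≤ 1) : (nc ε : ℝ) ≤ 2 / ε := by
  have a : (⌊1 / ε⌋₊ : ℝ) ≤ 1 / ε := Nat.floor_le (by positivity)
  have b : (1 : ℝ) ≤ 1 / ε := by rw [le_div_iff₀ hε]; linarith
  have c : (2 : ℝ) / ε = 1 / ε + 1 / ε := by ring
  unfold nc
  push_cast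
  linarith

open Classical in
/-- The cells met by the image of cell `i`. -/
noncomputable def nb (φ : I → I) (ε : ℝ) (i : ℕ) : Finset ℕ :=
  (Finset.range (nc ε)).filter fun j => ∃ x : I, cell ε x = i ∧ cell ε (φ x) = j

lemma mem_nb {ε : ℝ} (hε : 0 < ε) (φ : I → I) {i j : ℕ} :
    j ∈ nb φ ε i ↔ ∃ x : I, cell ε x = i ∧ cell ε (φ x) = j := by
  unfold nb
  simp only [Finset.mem_filter, Finset.mem_range, and_iff_right_iff_imp]
  rintro ⟨x, -, rfl⟩
  exact cell_lt hε _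

lemma nb_subset (φ : I → I) (ε : ℝ) (i : ℕ) : nb φ ε i ⊆ Finset.range (nc ε) := by
  classical
  intro j hj
  unfold nb at hj
  exact (Finset.mem_filter.1 hj).1

lemma nb_nonempty {ε : ℝ} (hε : 0 < ε) (φ : I → I) {i : ℕ} (hi : i < nc ε) :
    (nb φ ε i).Nonempty := by
  obtain ⟨x, hx⟩ := cell_nonempty hε hi
  exact ⟨_, (mem_nb hε φ).2 ⟨x, hx, rfl⟩⟩

lemma exists_pair {ε : ℝ} (hε : 0 < ε) (φ : I → I) (i : ℕ) :
    ∃ x y : I, x ≤ y ∧ (i < nc ε → cell ε x = i ∧ cell ε y = i ∧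
      ((nb φ ε i).card : ℝ) ≤ |(φ y : ℝ) - (φ x : ℝ)| / ε + 2) := by
  by_cases hi : i < nc ε
  swap
  · exact ⟨0, 0, le_rfl, fun h => absurd h hi⟩
  have hne := nb_nonempty hε φ hi
  obtain ⟨x, hx, hx'⟩ := (mem_nb hε φ).1 (Finset.min'_mem _ hne)
  obtain ⟨y, hy, hy'⟩ := (mem_nb hε φ).1 (Finset.max'_mem _ hne)
  have hsub : nb φ ε i ⊆ Finset.Icc (cell ε (φ x)) (cell ε (φ y)) := by
    intro j hj
    rw [hx', hy', Finset.mem_Icc]
    exact ⟨Finset.min'_le _ _ hj, Finset.le_max' _ _ hj⟩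
  have hle : cell ε (φ x) ≤ cell ε (φ y) := by
    rw [hx', hy']
    exact Finset.min'_le _ _ (Finset.max'_mem _ hne)
  have hcard : (nb φ ε i).card + cell ε (φ x) ≤ cell ε (φ y) + 1 := by
    have := Finset.card_le_card hsub
    rw [Nat.card_Icc] at this
    omega
  have hcard' : ((nb φ ε i).card : ℝ) + cell ε (φ x) ≤ cell ε (φ y) + 1 := by exact_mod_cast hcard
  have a1 := cell_le hε (φ y)
  have a2 := lt_cell ε (φ x)
  have a3 : ((φ y : ℝ) - (φ x : ℝ)) / ε ≤ |(φ y : ℝ) - (φ x : ℝ)| / ε :=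
    div_le_div_of_nonneg_right (le_abs_self _) hε.le
  have a4 : ((φ y : ℝ) - (φ x : ℝ)) / ε = (φ y : ℝ) / ε - (φ x : ℝ) / ε := sub_div _ _ _
  have hb : ((nb φ ε i).card : ℝ) ≤ |(φ y : ℝ) - (φ x : ℝ)| / ε + 2 := by linarith
  rcases le_total x y with h | h
  · exact ⟨x, y, h, fun _ => ⟨hx, hy, hb⟩⟩
  · exact ⟨y, x, h, fun _ => ⟨hy, hx, by rwa [abs_sub_comm]⟩⟩

lemma add_rpow_le {u v p : ℝ} (hu : 0 ≤ u) (hv : 0 ≤ v) (hp : 0 ≤ p) :
    (u + v) ^ p ≤ 2 ^ p * (u ^ p + v ^ p) := by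
  have hu' : 0 ≤ u ^ p := Real.rpow_nonneg hu p
  have hv' : 0 ≤ v ^ p := Real.rpow_nonneg hv p
  have h2 : (0 : ℝ) ≤ 2 ^ p := by positivity
  rcases le_total u v with h | h
  · calc (u + v) ^ p ≤ (2 * v) ^ p := Real.rpow_le_rpow (by linarith) (by linarith) hp
      _ = 2 ^ p * v ^ p := Real.mul_rpow (by norm_num) hv
      _ ≤ _ := mul_le_mul_of_nonneg_left (by linarith) h2
  · calc (u + v) ^ p ≤ (2 * u) ^ p := Real.rpow_le_rpow (by linarith) (by linarith) hp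
      _ = 2 ^ p * u ^ p := Real.mul_rpow (by norm_num) hu
      _ ≤ _ := mul_le_mul_of_nonneg_left (by linarith) h2

lemma sum_card_rpow {p a V : ℝ} (hp : 1 ≤ p) (ha : 0 ≤ a) (hap : a ≤ p - 1) {φ : I → I}
    (hV : ∀ (n : ℕ) (x : ℕ → I), (∀ i < n, x i < x (i + 1)) →
      ∑ i ∈ Finset.range n, T p a φ (x i) (x (i + 1)) ≤ V)
    {ε : ℝ} (hε : 0 < ε) (h1 : ε ≤ 1) :
    ∑ i ∈ Finset.range (nc ε), ((nb φ ε i).card : ℝ) ^ p ≤
      2 ^ p * (V + 2 ^ p * 2) * ε ^ (a - p) := by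
  have hp0 : 0 < p := by linarith
  choose x y hxy h using exists_pair hε φ
  have hs := fam hp0 hV x y (nc ε) hxy (fun i hi => by
    apply le_of_cell_lt hε
    rw [(h i (by omega)).2.1, (h (i + 1) hi).1]
    omega)
  have hterm : ∀ i ∈ Finset.range (nc ε), ((nb φ ε i).card : ℝ) ^ p ≤
      2 ^ p * (T p a φ (x i) (y i) * ε ^ (a - p) + 2 ^ p) := by
    intro i hi
    obtain ⟨c1, c2, c3⟩ := h i (Finset.mem_range.1 hi)
    have d1 : |(φ (y i) : ℝ) - (φ (x i) : ℝ)| ^ p ≤ T p a φ (x i) (y i) * ε ^ a := by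
      rcases (hxy i).eq_or_lt with e | hlt
      · rw [e, T_self hp0]
        simp [Real.zero_rpow hp0.ne']
      · have hpos : (0 : ℝ) < (y i : ℝ) - (x i : ℝ) := sub_pos.2 hlt
        have hcl := close_of_cell hε (c2.trans c1.symm)
        rw [abs_of_pos hpos] at hcl
        have e1 : |(φ (y i) : ℝ) - (φ (x i) : ℝ)| ^ p =
            T p a φ (x i) (y i) * ((y i : ℝ) - (x i : ℝ)) ^ a := by
          unfold T
          rw [div_mul_cancel₀ _ (Real.rpow_pos_of_pos hpos a).ne']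
        rw [e1]
        exact mul_le_mul_of_nonneg_left (Real.rpow_le_rpow hpos.le hcl.le ha)
          (T_nonneg p a φ (hxy i))
    have d2 : (|(φ (y i) : ℝ) - (φ (x i) : ℝ)| / ε) ^ p ≤ T p a φ (x i) (y i) * ε ^ (a - p) := by
      rw [Real.div_rpow (abs_nonneg _) hε.le, Real.rpow_sub hε, ← mul_div_assoc]
      exact div_le_div_of_nonneg_right d1 (Real.rpow_nonneg hε.le p)
    calc ((nb φ ε i).card : ℝ) ^ p ≤ (|(φ (y i) : ℝ) - (φ (x i) : ℝ)| / ε + 2) ^ p :=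
          Real.rpow_le_rpow (by positivity) c3 hp0.le
      _ ≤ 2 ^ p * ((|(φ (y i) : ℝ) - (φ (x i) : ℝ)| / ε) ^ p + 2 ^ p) :=
          add_rpow_le (by positivity) (by norm_num) hp0.le
      _ ≤ _ := mul_le_mul_of_nonneg_left (by linarith) (by positivity)
  have hE : 0 ≤ ε ^ (a - p) := Real.rpow_nonneg hε.le _
  have hM : (nc ε : ℝ) ≤ 2 * ε ^ (a - p) := by
    have b1 : ε ^ (-1 : ℝ) ≤ ε ^ (a - p) :=
      Real.rpow_le_rpow_of_exponent_ge hε h1 (by linarith)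
    rw [Real.rpow_neg_one] at b1
    have b2 := nc_le hε h1
    rw [div_eq_mul_inv] at b2
    linarith
  calc ∑ i ∈ Finset.range (nc ε), ((nb φ ε i).card : ℝ) ^ p
      ≤ ∑ i ∈ Finset.range (nc ε), 2 ^ p * (T p a φ (x i) (y i) * ε ^ (a - p) + 2 ^ p) :=
        Finset.sum_le_sum hterm
    _ = 2 ^ p * ((∑ i ∈ Finset.range (nc ε), T p a φ (x i) (y i)) * ε ^ (a - p) +
          2 ^ p * (nc ε : ℝ)) := by
        rw [← Finset.mul_sum, Finset.sum_add_distrib, ← Finset.sum_mul]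
        simp [mul_comm]
    _ ≤ 2 ^ p * (V * ε ^ (a - p) + 2 ^ p * (2 * ε ^ (a - p))) := by
        have h2 : (0 : ℝ) ≤ 2 ^ p := by positivity
        refine mul_le_mul_of_nonneg_left (add_le_add ?_ ?_) h2
        · exact mul_le_mul_of_nonneg_right hs hE
        · exact mul_le_mul_of_nonneg_left hM h2
    _ = _ := by ring

/-- The weight of a cell. -/
noncomputable def wt (p : ℝ) (φ : I → I) (ε : ℝ) (i : ℕ) : ℝ :=
  ((nb φ ε i).card : ℝ) ^ (p / (p + 1))

lemma one_le_wt {p : ℝ} (hp : 0 < p) (φ : I → I) {ε : ℝ} (hε : 0 < ε) {i : ℕ} (hi : i < nc ε) :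
    1 ≤ wt p φ ε i := by
  have : (1 : ℝ) ≤ ((nb φ ε i).card : ℝ) := by
    exact_mod_cast (nb_nonempty hε φ hi).card_pos
  exact Real.one_le_rpow this (by positivity)

lemma sum_wt_le {p S : ℝ} (hp : 0 < p) (φ : I → I) (ε : ℝ)
    (hS : ∑ i ∈ Finset.range (nc ε), ((nb φ ε i).card : ℝ) ^ p ≤ S) (i : ℕ) :
    ∑ j ∈ nb φ ε i, wt p φ ε j ≤ S ^ (1 / (p + 1)) * wt p φ ε i := by
  have hw : ∀ j, 0 ≤ wt p φ ε j := fun j => Real.rpow_nonneg (by positivity) _
  have hp1 : 0 < p + 1 := by linarith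
  have h1 := Real.rpow_sum_le_const_mul_sum_rpow_of_nonneg (nb φ ε i) (f := wt p φ ε)
    (p := p + 1) (by linarith) (fun j _ => hw j)
  have h2 : ∑ j ∈ nb φ ε i, wt p φ ε j ^ (p + 1) ≤ S := by
    have e : ∀ j, wt p φ ε j ^ (p + 1) = ((nb φ ε j).card : ℝ) ^ p := by
      intro j
      unfold wt
      rw [← Real.rpow_mul (by positivity), div_mul_cancel₀ _ hp1.ne']
    simp only [e]
    refine le_trans (Finset.sum_le_sum_of_subset_of_nonneg ?_ fun _ _ _ => by positivity) hS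
    exact nb_subset φ ε i
  have hS0 : 0 ≤ S := le_trans (Finset.sum_nonneg fun _ _ => by positivity) hS
  rw [add_sub_cancel_right] at h1
  have h3 : (∑ j ∈ nb φ ε i, wt p φ ε j) ^ (p + 1) ≤
      (S ^ (1 / (p + 1)) * wt p φ ε i) ^ (p + 1) := by
    rw [Real.mul_rpow (Real.rpow_nonneg hS0 _) (hw i), ← Real.rpow_mul hS0,
      one_div_mul_cancel hp1.ne', Real.rpow_one]
    unfold wt
    rw [← Real.rpow_mul (by positivity), div_mul_cancel₀ _ hp1.ne', mul_comm S]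
    exact h1.trans (mul_le_mul_of_nonneg_left h2 (by positivity))
  exact (Real.rpow_le_rpow_iff (Finset.sum_nonneg fun j _ => hw j)
    (mul_nonneg (Real.rpow_nonneg hS0 _) (hw i)) hp1).1 h3

lemma card_le_cell {p L : ℝ} (hp : 0 < p) (φ : I → I) {ε : ℝ} (hε : 0 < ε) (hL : 0 ≤ L)
    (hsum : ∀ i, ∑ j ∈ nb φ ε i, wt p φ ε j ≤ L * wt p φ ε i) (n : ℕ) :
    ∀ i < nc ε, ∀ A : Finset I, (∀ x ∈ A, cell ε x = i) → Separated φ (n + 1) ε A →
      (A.card : ℝ) ≤ L ^ n * wt p φ ε i := by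
  classical
  induction n with
  | zero =>
    intro i hi A hA hs
    have : A.card ≤ 1 := by
      rw [Finset.card_le_one]
      intro x hx y hy
      by_contra hne
      obtain ⟨j, hj, hlt⟩ := hs x hx y hy hne
      have : j = 0 := by omega
      subst this
      have := close_of_cell hε ((hA x hx).trans (hA y hy).symm)
      simp only [Function.iterate_zero, id] at hlt
      linarith
    have h' : (A.card : ℝ) ≤ 1 := by exact_mod_cast this
    simpa using h'.trans (one_le_wt hp φ hε hi)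
  | succ n ih =>
    intro i hi A hA hs
    have key : ∀ x ∈ A, ∀ y ∈ A, x ≠ y →
        ∃ j < n + 1, ε < |((φ^[j] (φ x) : I) : ℝ) - ((φ^[j] (φ y) : I) : ℝ)| := by
      intro x hx y hy hne
      obtain ⟨j, hj, hlt⟩ := hs x hx y hy hne
      rcases j with _ | j
      · have := close_of_cell hε ((hA x hx).trans (hA y hy).symm)
        simp only [Function.iterate_zero, id] at hlt
        linarith
      · exact ⟨j, by omega, by simpa only [Function.iterate_succ_apply] using hlt⟩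
    have hinj : Set.InjOn φ (A : Set I) := by
      intro x hx y hy hxy
      by_contra hne
      obtain ⟨j, -, hlt⟩ := key x hx y hy hne
      rw [hxy, sub_self, abs_zero] at hlt
      linarith
    have hB : Separated φ (n + 1) ε (A.image φ) := by
      intro x' hx' y' hy' hne
      obtain ⟨x, hx, rfl⟩ := Finset.mem_image.1 hx'
      obtain ⟨y, hy, rfl⟩ := Finset.mem_image.1 hy'
      exact key x hx y hy fun e => hne (by rw [e])
    have hmap : ∀ z ∈ A.image φ, cell ε z ∈ nb φ ε i := by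
      intro z hz
      obtain ⟨x, hx, rfl⟩ := Finset.mem_image.1 hz
      exact (mem_nb hε φ).2 ⟨x, hA x hx, rfl⟩
    rw [← Finset.card_image_of_injOn hinj, Finset.card_eq_sum_card_fiberwise hmap]
    push_cast
    calc ∑ j ∈ nb φ ε i, (((A.image φ).filter fun z => cell ε z = j).card : ℝ)
        ≤ ∑ j ∈ nb φ ε i, L ^ n * wt p φ ε j := by
          refine Finset.sum_le_sum fun j hj => ih j ?_ _ ?_ ?_
          · exact Finset.mem_range.1 (nb_subset φ ε i hj)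
          · exact fun z hz => (Finset.mem_filter.1 hz).2
          · exact fun x hx y hy hne =>
              hB x (Finset.mem_filter.1 hx).1 y (Finset.mem_filter.1 hy).1 hne
      _ = L ^ n * ∑ j ∈ nb φ ε i, wt p φ ε j := by rw [Finset.mul_sum]
      _ ≤ L ^ n * (L * wt p φ ε i) := mul_le_mul_of_nonneg_left (hsum i) (by positivity)
      _ = _ := by ring

lemma card_le {p L : ℝ} (hp : 0 < p) (φ : I → I) {ε : ℝ} (hε : 0 < ε) (hL : 0 ≤ L)
    (hsum : ∀ i, ∑ j ∈ nb φ ε i, wt p φ ε j ≤ L * wt p φ ε i) (n : ℕ) (A : Finset I)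
    (hs : Separated φ (n + 1) ε A) :
    (A.card : ℝ) ≤ (∑ i ∈ Finset.range (nc ε), wt p φ ε i) * L ^ n := by
  classical
  have hmap : ∀ z ∈ A, cell ε z ∈ Finset.range (nc ε) := fun z _ =>
    Finset.mem_range.2 (cell_lt hε z)
  rw [Finset.card_eq_sum_card_fiberwise hmap, Finset.sum_mul]
  push_cast
  refine Finset.sum_le_sum fun i hi => ?_
  rw [mul_comm]
  refine card_le_cell hp φ hε hL hsum n i (Finset.mem_range.1 hi) _ ?_ ?_
  · exact fun z hz => (Finset.mem_filter.1 hz).2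
  · exact fun x hx y hy hne => hs x (Finset.mem_filter.1 hx).1 y (Finset.mem_filter.1 hy).1 hne

lemma sepRate_le {K L : ℝ} (hK : 0 ≤ K) (hL : 0 < L) (φ : I → I) (ε : ℝ)
    (h : ∀ (n : ℕ) (A : Finset I), Separated φ (n + 1) ε A → (A.card : ℝ) ≤ K * L ^ n) :
    sepRate φ ε ≤ ((Real.log L : ℝ) : EReal) := by
  have h1 : ∀ᶠ n : ℕ in atTop, sepCard φ n ε ≤
      ENNReal.ofReal (K / L) * (fun n : ℕ => (ENNReal.ofReal L) ^ n) n := by
    filter_upwards [eventually_ge_atTop 1] with n hn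
    obtain ⟨m, rfl⟩ : ∃ m, n = m + 1 := ⟨n - 1, by omega⟩
    refine iSup₂_le fun A hA => ?_
    rw [← ENNReal.ofReal_pow hL.le, ← ENNReal.ofReal_mul (by positivity),
      ← ENNReal.ofReal_natCast]
    refine ENNReal.ofReal_le_ofReal ((h m A hA).trans (le_of_eq ?_))
    field_simp
    ring
  have h2 := ExpGrowth.expGrowthSup_le_of_eventually_le ENNReal.ofReal_ne_top h1
  rw [ExpGrowth.expGrowthSup_pow, ENNReal.log_ofReal_of_pos hL] at h2
  exact h2

lemma sepRate_le_var {p a : ℝ} (hp : 1 ≤ p) (ha : 0 ≤ a) (hap : a ≤ p - 1) {φ : I → I}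
    (hφ : FiniteVar p a φ) : ∃ C : ℝ, ∀ ε : ℝ, 0 < ε → ε ≤ 1 →
      sepRate φ ε ≤ ((C + (p - a) / (p + 1) * |Real.log ε| : ℝ) : EReal) := by
  obtain ⟨V, hV⟩ := hφ
  have hp0 : 0 < p := by linarith
  have hV0 : 0 ≤ V := by simpa using hV 0 (fun _ => 0) (by simp)
  have hC : 0 < 2 ^ p * (V + 2 ^ p * 2) := by positivity
  refine ⟨Real.log (2 ^ p * (V + 2 ^ p * 2)) / (p + 1), fun ε hε h1 => ?_⟩
  have hS := sum_card_rpow hp ha hap (V := V) (φ := φ) hV hε h1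
  have hS0 : 0 < 2 ^ p * (V + 2 ^ p * 2) * ε ^ (a - p) := mul_pos hC (Real.rpow_pos_of_pos hε _)
  have hL := Real.rpow_pos_of_pos hS0 (1 / (p + 1))
  have hw : 0 ≤ ∑ i ∈ Finset.range (nc ε), wt p φ ε i :=
    Finset.sum_nonneg fun j _ => Real.rpow_nonneg (by positivity) _
  have := sepRate_le hw hL φ ε (card_le hp0 φ hε hL.le (sum_wt_le hp0 φ ε hS))
  refine this.trans (le_of_eq ?_)
  congr 1
  rw [Real.log_rpow hS0, Real.log_mul hC.ne' (Real.rpow_pos_of_pos hε _).ne', Real.log_rpow hε,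
    abs_of_nonpos (Real.log_nonpos hε.le h1)]
  ring

lemma tendsto_abs_log : Tendsto (fun ε : ℝ => |Real.log ε|) (𝓝[>] 0) atTop :=
  tendsto_abs_atBot_atTop.comp Real.tendsto_log_nhdsGT_zero

theorem upper {p a : ℝ} (hp : 1 ≤ p) (ha : 0 ≤ a) (hap : a ≤ p - 1) {φ : I → I}
    (hφ : FiniteVar p a φ) : mdimUpper φ ≤ (((p - a) / (p + 1) : ℝ) : EReal) := by
  obtain ⟨C, hC⟩ := sepRate_le_var hp ha hap hφ
  have ht : Tendsto (fun ε : ℝ => ((C / |Real.log ε| + (p - a) / (p + 1) : ℝ) : EReal))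
      (𝓝[>] 0) (𝓝 (((p - a) / (p + 1) : ℝ) : EReal)) := by
    rw [EReal.tendsto_coe]
    simpa using (tendsto_abs_log.const_div_atTop C).add_const ((p - a) / (p + 1))
  rw [← ht.limsup_eq]
  refine limsup_le_limsup ?_
  have e1 : ∀ᶠ ε : ℝ in 𝓝[>] 0, ε ∈ Set.Ioo (0 : ℝ) 1 := Ioo_mem_nhdsGT (by norm_num)
  filter_upwards [e1] with ε hε
  have hl : 0 < |Real.log ε| := abs_pos.2 (Real.log_neg hε.1 hε.2).ne
  calc sepRate φ ε / ((|Real.log ε| : ℝ) : EReal)
      ≤ ((C + (p - a) / (p + 1) * |Real.log ε| : ℝ) : EReal) / ((|Real.log ε| : ℝ) : EReal) :=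
        EReal.div_le_div_right_of_nonneg (by exact_mod_cast hl.le) (hC ε hε.1 hε.2.le)
    _ = _ := by
        rw [← EReal.coe_div]
        congr 1
        field_simp

end Pool.Agent.Lib.MP_428550_an.Up
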